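import Pool.Agent.H78.GeomEq

namespace Pool.Agent.Results.MP_611bc7_al.Twist

open Pool.Agent.H78.GeomEq

/-- Over some field of characteristic zero there are commutative associative algebras that are
automorphically equivalent but not geometrically equivalent. -/
theorem result : ∃ (k : Type) (_ : Field k), CharZero k ∧
    ∃ H₁ H₂ : CAlg k, AutEquiv H₁ H₂ ∧ ¬ GeomEquiv H₁ H₂ :=
  main

end Pool.Agent.Results.MP_611bc7_al.Twist
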